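import Pool.Agent.Helper76.TC.Goals

/-! Packet TC-TU (MP_ccd65d_gt): bounded turning of the example. -/

set_option autoImplicit false

open Set Topology

namespace Pool.Agent.Helper23.TC.TU

open Pool.Agent.Helper76.TC

noncomputable section

theorem fo_le (t : ℝ) (j : ℤ) : fo t ≤ |t - j| := round_le t j

theorem fo_half (t : ℝ) : fo t ≤ 1 / 2 := abs_sub_round t

theorem fo_nonneg (t : ℝ) : 0 ≤ fo t := abs_nonneg _

theorem fo_eq {t : ℝ} {j : ℤ} (h : |t - j| ≤ 1 / 2) : fo t = |t - j| := by
  apply le_antisymm (fo_le t j)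
  unfold fo
  by_cases hj : round t = j
  · rw [hj]
  · have h1 : (1 : ℝ) ≤ |(round t : ℝ) - j| := by
      have : (1 : ℤ) ≤ |round t - j| := Int.one_le_abs (sub_ne_zero.2 hj)
      exact_mod_cast this
    have h2 : |(round t : ℝ) - j| ≤ |(round t : ℝ) - t| + |t - j| := abs_sub_le _ t _
    rw [abs_sub_comm (round t : ℝ) t] at h2
    linarith

theorem fo_lip (s t : ℝ) : |fo s - fo t| ≤ |s - t| := by
  have h : ∀ s t : ℝ, fo s ≤ fo t + |s - t| := by
    intro s t
    have h1 := fo_le s (round t)
    have h2 : |s - (round t : ℝ)| ≤ |s - t| + |t - round t| := abs_sub_le _ t _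
    have h3 : fo t = |t - round t| := rfl
    linarith
  rw [abs_le]
  have h1 := h s t
  have h2 := h t s
  rw [abs_sub_comm t s] at h2
  constructor <;> linarith

theorem exists_cell (s t : ℝ) : ∃ t', Cell s t' ∧ fo t' = fo t ∧ |t' - s| ≤ |t - s| := by
  have h0 : (⌊s⌋ : ℝ) ≤ s := Int.floor_le s
  have h1 : s < ⌊s⌋ + 1 := Int.lt_floor_add_one s
  have h2 := fo_half t
  have h3 := fo_nonneg t
  rcases le_total (s - ⌊s⌋) (1 / 2) with h | h
  · refine ⟨⌊s⌋ + fo t, ⟨2 * ⌊s⌋, ?_, ?_, ?_, ?_⟩, ?_, ?_⟩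
    · push_cast
      linarith
    · push_cast
      linarith
    · push_cast
      linarith
    · push_cast
      linarith
    · have h4 : |(⌊s⌋ : ℝ) + fo t - ⌊s⌋| = fo t := by
        rw [add_sub_cancel_left, abs_of_nonneg h3]
      rw [fo_eq (j := ⌊s⌋) (by rw [h4]; exact h2), h4]
    · have h5 : fo s = s - ⌊s⌋ := by
        rw [fo_eq (j := ⌊s⌋) (by rw [abs_of_nonneg (by linarith)]; exact h),
          abs_of_nonneg (by linarith)]
      have h6 := fo_lip t s
      rw [h5] at h6
      rwa [show (⌊s⌋ : ℝ) + fo t - s = fo t - (s - ⌊s⌋) by ring]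
  · refine ⟨⌊s⌋ + 1 - fo t, ⟨2 * ⌊s⌋ + 1, ?_, ?_, ?_, ?_⟩, ?_, ?_⟩
    · push_cast
      linarith
    · push_cast
      linarith
    · push_cast
      linarith
    · push_cast
      linarith
    · have h4 : |(⌊s⌋ : ℝ) + 1 - fo t - ((⌊s⌋ + 1 : ℤ) : ℝ)| = fo t := by
        push_cast
        rw [show (⌊s⌋ : ℝ) + 1 - fo t - (⌊s⌋ + 1) = - fo t by ring, abs_neg, abs_of_nonneg h3]
      rw [fo_eq (j := ⌊s⌋ + 1) (by rw [h4]; exact h2), h4]
    · have h5 : fo s = ⌊s⌋ + 1 - s := by
        have h7 : |s - ((⌊s⌋ + 1 : ℤ) : ℝ)| = ⌊s⌋ + 1 - s := by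
          push_cast
          rw [abs_sub_comm, abs_of_nonneg (by linarith)]
        rw [fo_eq (j := ⌊s⌋ + 1) (by rw [h7]; linarith), h7]
      have h6 := fo_lip t s
      rw [h5, abs_sub_comm] at h6
      rwa [show (⌊s⌋ : ℝ) + 1 - fo t - s = ⌊s⌋ + 1 - s - fo t by ring]

theorem joined_map {X Y : Type} [TopologicalSpace X] [TopologicalSpace Y] {S : Set X}
    {T : Set Y} {p q : X} (h : JoinedIn S p q) (f : X → Y) (hf : Continuous f)
    (hm : ∀ z ∈ S, f z ∈ T) : JoinedIn T (f p) (f q) :=
  ⟨h.somePath.map hf, fun t => hm _ (h.somePath_mem t)⟩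

/-- replace the first three coordinates -/
def E (m : ℕ) (y : Fin (m + 3) → ℝ) (z : Fin 3 → ℝ) : Fin (m + 3) → ℝ := fun i =>
  if h : i.val < 3 then z ⟨i.val, h⟩ else y i

theorem E_cont (m : ℕ) (y : Fin (m + 3) → ℝ) : Continuous (E m y) := by
  refine continuous_pi fun i => ?_
  unfold E
  by_cases h : i.val < 3
  · simp only [h, dif_pos]
    exact continuous_apply _
  · simp only [h, dif_neg, not_false_iff]
    exact continuous_const

/-- the first three coordinates -/
def fst3 (m : ℕ) (x : Fin (m + 3) → ℝ) : Fin 3 → ℝ := fun i => x (Fin.castLE (by omega) i)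

theorem uu_eq (m : ℕ) (x : Fin (m + 3) → ℝ) : uu m x = 2 * mm (fst3 m x) := by
  unfold uu mm fst3
  rfl

theorem fst3_E (m : ℕ) (y : Fin (m + 3) → ℝ) (z : Fin 3 → ℝ) : fst3 m (E m y z) = z := by
  funext i
  unfold fst3 E
  have h : (Fin.castLE (by omega : 3 ≤ m + 3) i).val < 3 := i.2
  rw [dif_pos h]
  rfl

theorem E_fst3 (m : ℕ) (y : Fin (m + 3) → ℝ) : E m y (fst3 m y) = y := by
  funext i
  unfold fst3 E
  by_cases h : i.val < 3
  · rw [dif_pos h]
    rfl
  · rw [dif_neg h]

theorem mm_congr {z w : Fin 3 → ℝ} (h : ∀ i, fo (z i) = fo (w i)) : mm z = mm w := by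
  unfold mm
  rw [h 0, h 1, h 2]

theorem t (_hME : S_ME) (hCL : S_CL) (hCR : S_CR) : S_TU := by
  intro m x y
  set δ := ‖x - y‖ with hδ
  have hδ0 : 0 ≤ δ := norm_nonneg _
  have hxy : ∀ i, |x i - y i| ≤ δ := fun i => by
    have := norm_le_pi_norm (x - y) i
    rwa [Pi.sub_apply, Real.norm_eq_abs] at this
  set S : Set (Fin (m + 3) → ℝ) := {z | ‖x - z‖ ≤ 3 * δ ∧ uu m z ∈ uIcc (uu m x) (uu m y)}
    with hS
  set p := fst3 m x with hp
  set q := fst3 m y with hq
  have hpq : ∀ i, |p i - q i| ≤ δ := fun i => hxy _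
  -- criterion
  have crit : ∀ z : Fin 3 → ℝ, (∀ i, |z i - p i| ≤ 3 * δ) → mm z ∈ uIcc (mm p) (mm q) →
      E m y z ∈ S := by
    intro z hz hmm
    constructor
    · rw [pi_norm_le_iff_of_nonneg (by linarith)]
      intro i
      rw [Pi.sub_apply, Real.norm_eq_abs]
      unfold E
      by_cases h : i.val < 3
      · rw [dif_pos h, abs_sub_comm]
        exact hz ⟨i.val, h⟩
      · rw [dif_neg h]
        have := hxy i
        linarith
    · rw [uu_eq, uu_eq, uu_eq, fst3_E]
      rw [mem_uIcc] at hmm ⊢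
      rcases hmm with ⟨h1, h2⟩ | ⟨h1, h2⟩
      · left
        constructor <;> linarith
      · right
        constructor <;> linarith
  -- first step
  have s1 : JoinedIn S x (E m y p) := by
    apply JoinedIn.of_segment_subset
    rintro z ⟨a, b, ha, hb, hab, rfl⟩
    have hf : fst3 m (a • x + b • E m y p) = p := by
      funext i
      have h1 : fst3 m (E m y p) i = p i := by rw [fst3_E]
      change a * x (Fin.castLE (by omega) i) + b * E m y p (Fin.castLE (by omega) i) = p i
      change E m y p (Fin.castLE (by omega) i) = p i at h1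
      rw [h1]
      change a * p i + b * p i = p i
      rw [← add_mul, hab, one_mul]
    constructor
    · rw [pi_norm_le_iff_of_nonneg (by linarith)]
      intro i
      rw [Pi.sub_apply, Real.norm_eq_abs]
      change |x i - (a * x i + b * E m y p i)| ≤ 3 * δ
      by_cases h : i.val < 3
      · have h1 : E m y p i = x i := by
          unfold E
          rw [dif_pos h]
          rfl
        rw [h1, ← add_mul, hab, one_mul, sub_self, abs_zero]
        linarith
      · have h1 : E m y p i = y i := by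
          unfold E
          rw [dif_neg h]
        rw [h1, show x i - (a * x i + b * y i) = b * (x i - y i) by
          have : a = 1 - b := by linarith
          rw [this]
          ring, abs_mul, abs_of_nonneg hb]
        have h2 := hxy i
        have h3 : b * |x i - y i| ≤ 1 * |x i - y i| :=
          mul_le_mul_of_nonneg_right (by linarith) (abs_nonneg _)
        linarith
    · rw [uu_eq m (a • x + b • E m y p), hf, uu_eq m x]
      exact left_mem_uIcc
  -- second step
  choose y' hc hfo hd using fun i => exists_cell (p i) (q i)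
  have hy'p : ∀ i, |y' i - p i| ≤ δ := fun i => by
    have h1 := hd i
    have h2 := hpq i
    rw [abs_sub_comm] at h2
    exact h1.trans h2
  have hmy : mm y' = mm q := mm_congr hfo
  have s2 : JoinedIn S (E m y p) (E m y y') := by
    refine joined_map (hCL p y' hc) (E m y) (E_cont m y) ?_
    rintro z ⟨hz1, hz2⟩
    apply crit
    · intro i
      have h1 : |z i - p i| ≤ |y' i - p i| := abs_sub_left_of_mem_uIcc (hz1 i)
      have h2 := hy'p i
      linarith
    · rw [← hmy]
      exact hz2
  -- third step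
  have step : ∀ (z : Fin 3 → ℝ) (i : Fin 3), (∀ j, |z j - p j| ≤ δ) →
      (∀ j, fo (z j) = fo (q j)) →
      JoinedIn S (E m y z) (E m y (Function.update z i (q i))) := by
    intro z i h1 h2
    refine joined_map (hCR z i (q i) (h2 i).symm) (E m y) (E_cont m y) ?_
    rintro v ⟨hv1, hv2, hv3⟩
    have hqz : |q i - z i| ≤ 2 * δ := by
      have h3 := h1 i
      have h4 := hpq i
      have h5 : |q i - z i| ≤ |q i - p i| + |p i - z i| := abs_sub_le _ _ _
      rw [abs_sub_comm (q i) (p i), abs_sub_comm (p i) (z i)] at h5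
      linarith
    apply crit
    · intro j
      by_cases hj : j = i
      · subst hj
        have h3 := h1 j
        have h4 := hpq j
        rw [abs_le] at h3 h4 ⊢
        rw [mem_uIcc] at hv2
        rcases hv2 with ⟨h5, h6⟩ | ⟨h5, h6⟩
        · constructor <;> linarith
        · constructor <;> linarith
      · have h3 := hv3 j hj
        have h4 := h1 j
        have h5 : |v j - p j| ≤ |v j - z j| + |z j - p j| := abs_sub_le _ _ _
        linarith
    · rw [hv1, mm_congr h2]
      exact right_mem_uIcc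
  have inv1 : ∀ (z : Fin 3 → ℝ) (i : Fin 3), (∀ j, |z j - p j| ≤ δ) →
      (∀ j, |Function.update z i (q i) j - p j| ≤ δ) := by
    intro z i h1 j
    by_cases hj : j = i
    · subst hj
      rw [Function.update_self, abs_sub_comm]
      exact hpq j
    · rw [Function.update_of_ne hj]
      exact h1 j
  have inv2 : ∀ (z : Fin 3 → ℝ) (i : Fin 3), (∀ j, fo (z j) = fo (q j)) →
      (∀ j, fo (Function.update z i (q i) j) = fo (q j)) := by
    intro z i h1 j
    by_cases hj : j = i
    · subst hj
      rw [Function.update_self]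
    · rw [Function.update_of_ne hj]
      exact h1 j
  have s3 := step y' 0 hy'p hfo
  have s4 := step _ 1 (inv1 y' 0 hy'p) (inv2 y' 0 hfo)
  have s5 := step _ 2 (inv1 _ 1 (inv1 y' 0 hy'p)) (inv2 _ 1 (inv2 y' 0 hfo))
  have he : Function.update (Function.update (Function.update y' 0 (q 0)) 1 (q 1)) 2 (q 2) = q := by
    funext i
    fin_cases i
    · rfl
    · rfl
    · rfl
  rw [he, hq, E_fst3] at s5
  exact s1.trans (s2.trans (s3.trans (s4.trans s5)))

end

end Pool.Agent.Helper23.TC.TU
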